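import Pool.Agent.E8helper59.TS.Stm

set_option autoImplicit false
open MeasureTheory Set Filter Topology
open scoped Pointwise ENNReal

namespace Pool.Agent.E8helper88.TS

open Pool.Agent.E8helper59.TS

theorem Sep_sub {B : Set (ℝ × ℝ)} {F F' : Finset (ℝ × ℝ)} (h : Pool.Agent.E8helper59.TS.Sep B F) (hF : F' ⊆ F) :
    Pool.Agent.E8helper59.TS.Sep B F' := by
  intro t ht s hs hne
  obtain ⟨u, c, h1, h2, h3, h4, h5⟩ := h t (hF ht) s (hF hs) hne
  exact ⟨u, c, h1, h2, h3, h4, fun r hr => h5 r (hF hr)⟩

theorem core (h : S_DIR) (A : ℝ) (B : Set (ℝ × ℝ)) (hB : Bod B) (hC : Cap A B) :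
    ∀ (n : ℕ) (F : Finset (ℝ × ℝ)), F.card = n → F.Nonempty → Pool.Agent.E8helper59.TS.Sep B F →
      (F.card : ℝ) * A + (volume B).toReal ≤
        (volume (convexHull ℝ (F : Set (ℝ × ℝ)) + B)).toReal + A := by
  classical
  intro n
  induction n using Nat.strong_induction_on with
  | _ n ih =>
    intro F hn hne hsep
    by_cases h1 : ∃ t ∈ F, ∃ s ∈ F, t ≠ s
    · obtain ⟨t, ht, s, hs, hts⟩ := h1
      obtain ⟨u, c, hu1, hu2, htc, hsc, hr⟩ := hsep t ht s hs hts
      set F1 := F.filter (fun r => u r ≤ c) with hF1
      set F2 := F.filter (fun r => c + 1 ≤ u r) with hF2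
      have hdisj : Disjoint F1 F2 := by
        rw [Finset.disjoint_left]
        intro r h1 h2
        rw [hF1, Finset.mem_filter] at h1
        rw [hF2, Finset.mem_filter] at h2
        have := h1.2
        have := h2.2
        linarith
      have hun : F1 ∪ F2 = F := by
        ext r
        rw [Finset.mem_union, hF1, hF2, Finset.mem_filter, Finset.mem_filter]
        constructor
        · rintro (h | h)
          · exact h.1
          · exact h.1
        · intro hrF
          rcases hr r hrF with h | h
          · exact Or.inl ⟨hrF, h⟩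
          · exact Or.inr ⟨hrF, h⟩
      have hcard : F1.card + F2.card = F.card := by
        rw [← hun, Finset.card_union_of_disjoint hdisj]
      have hne1 : F1.Nonempty := ⟨t, Finset.mem_filter.2 ⟨ht, htc⟩⟩
      have hne2 : F2.Nonempty := ⟨s, Finset.mem_filter.2 ⟨hs, hsc⟩⟩
      have hp1 := Finset.card_pos.2 hne1
      have hp2 := Finset.card_pos.2 hne2
      set C := convexHull ℝ (F : Set (ℝ × ℝ)) with hCdef
      have hCc : IsCompact C := Set.Finite.isCompact_convexHull (𝕜 := ℝ) F.finite_toSet
      have hCv : Convex ℝ C := convex_convexHull _ _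
      have hfin : volume (C + B) ≠ ⊤ := (hCc.add hB.comp).measure_lt_top.ne
      have key := h A B C hB hC u hu1 hu2 hCc hCv c
        ⟨t, subset_convexHull _ _ (Finset.mem_coe.2 ht), htc⟩
        ⟨s, subset_convexHull _ _ (Finset.mem_coe.2 hs), hsc⟩
      have i1 := ih F1.card (by omega) F1 rfl hne1 (Sep_sub hsep (Finset.filter_subset _ _))
      have i2 := ih F2.card (by omega) F2 rfl hne2 (Sep_sub hsep (Finset.filter_subset _ _))
      have m1 : (volume (convexHull ℝ (F1 : Set (ℝ × ℝ)) + B)).toReal ≤
          (volume ((C ∩ {p | u p ≤ c}) + B)).toReal := by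
        refine ENNReal.toReal_mono ?_ (measure_mono (Set.add_subset_add_right ?_))
        · exact ne_top_of_le_ne_top hfin (measure_mono (Set.add_subset_add_right inter_subset_left))
        · refine convexHull_min ?_ (hCv.inter (convex_halfSpace_le u.toLinearMap.isLinear c))
          intro r hr'
          rw [Finset.mem_coe, hF1, Finset.mem_filter] at hr'
          exact ⟨subset_convexHull _ _ (Finset.mem_coe.2 hr'.1), hr'.2⟩
      have m2 : (volume (convexHull ℝ (F2 : Set (ℝ × ℝ)) + B)).toReal ≤
          (volume ((C ∩ {p | c + 1 ≤ u p}) + B)).toReal := by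
        refine ENNReal.toReal_mono ?_ (measure_mono (Set.add_subset_add_right ?_))
        · exact ne_top_of_le_ne_top hfin (measure_mono (Set.add_subset_add_right inter_subset_left))
        · refine convexHull_min ?_ (hCv.inter (convex_halfSpace_ge u.toLinearMap.isLinear (c + 1)))
          intro r hr'
          rw [Finset.mem_coe, hF2, Finset.mem_filter] at hr'
          exact ⟨subset_convexHull _ _ (Finset.mem_coe.2 hr'.1), hr'.2⟩
      have hc : (F.card : ℝ) = F1.card + F2.card := by
        rw [← hcard]; push_cast; ring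
      rw [hc, add_mul]
      linarith
    · push Not at h1
      obtain ⟨t, ht⟩ := hne
      have hF : F = {t} := by
        ext r
        rw [Finset.mem_singleton]
        constructor
        · intro hr
          exact h1 r hr t ht
        · rintro rfl
          exact ht
      rw [hF, Finset.card_singleton, Finset.coe_singleton, convexHull_singleton,
        Set.singleton_add, Set.image_add_left, measure_preimage_add]
      push_cast
      linarith

theorem t_FIN (h : S_DIR) : S_FIN := by
  intro A B hA hB hC ρ hρ R F hR hsep hF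
  obtain ⟨p0, hp0⟩ := hB.int
  have hρ0 : 0 ≤ ρ := (norm_nonneg p0).trans (hρ p0 (interior_subset hp0))
  rcases F.eq_empty_or_nonempty with he | hne
  · rw [he, Finset.card_empty]
    push_cast
    have : 0 ≤ (2 * R + 2 * ρ) ^ 2 := sq_nonneg _
    linarith
  · have h1 := core h A B hB hC F.card F rfl hne hsep
    have hsub : convexHull ℝ (F : Set (ℝ × ℝ)) + B ⊆ Metric.closedBall (0 : ℝ × ℝ) (R + ρ) := by
      have hc : convexHull ℝ (F : Set (ℝ × ℝ)) ⊆ Metric.closedBall (0 : ℝ × ℝ) R := by
        refine convexHull_min ?_ (convex_closedBall _ _)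
        intro r hr
        rw [mem_closedBall_zero_iff]
        exact hF r (Finset.mem_coe.1 hr)
      rintro _ ⟨a, ha, b, hb, rfl⟩
      have ha' := mem_closedBall_zero_iff.1 (hc ha)
      rw [mem_closedBall_zero_iff]
      exact (norm_add_le a b).trans (add_le_add ha' (hρ b hb))
    have hvol : volume (Metric.closedBall (0 : ℝ × ℝ) (R + ρ)) =
        ENNReal.ofReal ((2 * (R + ρ)) * (2 * (R + ρ))) := by
      have : Metric.closedBall (0 : ℝ × ℝ) (R + ρ) =
          Metric.closedBall (0 : ℝ) (R + ρ) ×ˢ Metric.closedBall (0 : ℝ) (R + ρ) := by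
        rw [closedBall_prod_same]; rfl
      rw [this, Measure.volume_eq_prod, Measure.prod_prod, Real.volume_closedBall,
        ← ENNReal.ofReal_mul (by positivity)]
    have h2 : (volume (convexHull ℝ (F : Set (ℝ × ℝ)) + B)).toReal ≤ (2 * R + 2 * ρ) ^ 2 := by
      calc (volume (convexHull ℝ (F : Set (ℝ × ℝ)) + B)).toReal ≤
          (volume (Metric.closedBall (0 : ℝ × ℝ) (R + ρ))).toReal :=
            ENNReal.toReal_mono (by rw [hvol]; exact ENNReal.ofReal_ne_top) (measure_mono hsub)
        _ = (2 * R + 2 * ρ) ^ 2 := by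
            rw [hvol, ENNReal.toReal_ofReal (by positivity)]; ring
    have h3 : 0 ≤ (volume B).toReal := ENNReal.toReal_nonneg
    linarith

end Pool.Agent.E8helper88.TS
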